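import Mathlib

namespace Pool.Agent.Rov

/-- `C(N,k) ≤ (1+1/Y)^N Y^k`. -/
theorem choose_le (N k : ℕ) (Y : ℝ) (hY : 0 < Y) :
    ((N.choose k : ℕ) : ℝ) ≤ (1 + 1 / Y) ^ N * Y ^ k := by
  rcases Nat.lt_or_ge N k with h | h
  · rw [Nat.choose_eq_zero_of_lt h, Nat.cast_zero]
    positivity
  · have h1 : (1 / Y) ^ k * ((N.choose k : ℕ) : ℝ) ≤ (1 / Y + 1) ^ N := by
      rw [add_pow]
      have h2 := Finset.single_le_sum (f := fun m => (1 / Y) ^ m * 1 ^ (N - m) * ((N.choose m : ℕ) : ℝ))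
        (s := Finset.range (N + 1)) (fun m _ => by positivity) (Finset.mem_range.2 (by omega : k < N + 1))
      simp only [one_pow, mul_one] at h2 ⊢
      exact h2
    have h3 : ((N.choose k : ℕ) : ℝ) = ((1 / Y) ^ k * ((N.choose k : ℕ) : ℝ)) * Y ^ k := by
      rw [one_div, inv_pow]
      field_simp
    rw [h3, add_comm 1 (1 / Y)]
    exact mul_le_mul_of_nonneg_right h1 (by positivity)

theorem exists_delta (p n M : ℕ) (hp : 2 ≤ p) (hM : M < p ^ (2 * n)) :
    ∃ δ : ℝ, 0 < δ ∧ ∀ h r : ℕ, p ^ r * (p ^ h) ^ (2 * n) ≤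
      M ^ h * ((2 * n + 1) * h + (p - 1) * r).choose ((p - 1) * r) → δ * h ≤ r := by
  rcases Nat.eq_zero_or_pos M with rfl | hM0
  · refine ⟨1, one_pos, ?_⟩
    intro h r hr
    rcases Nat.eq_zero_or_pos h with rfl | hh
    · simp
    · rw [zero_pow hh.ne', zero_mul] at hr
      have h1 : 0 < p ^ r * (p ^ h) ^ (2 * n) := by positivity
      omega
  have hMR : (0 : ℝ) < M := by exact_mod_cast hM0
  have hMp : (M : ℝ) < (p : ℝ) ^ (2 * n) := by exact_mod_cast hM
  set θ : ℝ := (p : ℝ) ^ (2 * n) / M with hθ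
  have hθ1 : 1 < θ := by
    rw [hθ, lt_div_iff₀ hMR, one_mul]
    exact hMp
  -- choose `Y`
  have hlim : Filter.Tendsto (fun Y : ℝ => (1 + 1 / Y) ^ (2 * n + p)) Filter.atTop (nhds 1) := by
    have h1 : Filter.Tendsto (fun Y : ℝ => 1 + 1 / Y) Filter.atTop (nhds (1 + 0)) := by
      apply Filter.Tendsto.add tendsto_const_nhds
      have h0 : (fun Y : ℝ => 1 / Y) = fun Y => Y⁻¹ := by
        funext Y
        exact one_div Y
      show Filter.Tendsto (fun Y : ℝ => 1 / Y) Filter.atTop (nhds 0)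
      rw [h0]
      exact tendsto_inv_atTop_zero
    have h2 := h1.pow (2 * n + p)
    rwa [add_zero, one_pow] at h2
  have hev := (hlim.eventually (gt_mem_nhds hθ1)).and (Filter.eventually_gt_atTop (1 : ℝ))
  obtain ⟨Y, hY1, hY2⟩ := hev.exists
  have hY0 : (0 : ℝ) < Y := by linarith
  set A : ℝ := (1 + 1 / Y) ^ (2 * n + p) with hA
  have hA0 : 0 < A := by positivity
  set ρ : ℝ := θ / A with hρ
  have hρ1 : 1 < ρ := by
    rw [hρ, lt_div_iff₀ hA0, one_mul]
    exact hY1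
  -- choose `δ`
  have hlY : 0 < Real.log Y := Real.log_pos hY2
  have hlρ : 0 < Real.log ρ := Real.log_pos hρ1
  have hpR : (0 : ℝ) < p := by exact_mod_cast (by omega : 0 < p)
  refine ⟨min 1 (Real.log ρ / (p * Real.log Y)), lt_min one_pos (by positivity), ?_⟩
  intro h r hr
  by_contra hcon
  push Not at hcon
  have hr1 : (r : ℝ) < h := by
    have := mul_le_mul_of_nonneg_right (min_le_left (1 : ℝ) (Real.log ρ / (p * Real.log Y)))
      (Nat.cast_nonneg h : (0 : ℝ) ≤ (h : ℝ))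
    linarith
  have hr1' : r < h := by exact_mod_cast hr1
  have hr2 : (r : ℝ) * (p * Real.log Y) < Real.log ρ * h := by
    have h1 := mul_le_mul_of_nonneg_right (min_le_right (1 : ℝ) (Real.log ρ / (p * Real.log Y)))
      (Nat.cast_nonneg h : (0 : ℝ) ≤ (h : ℝ))
    have h2 : (r : ℝ) < Real.log ρ / (p * Real.log Y) * h := lt_of_lt_of_le hcon h1
    have h3 : Real.log ρ / (p * Real.log Y) * h * (p * Real.log Y) = Real.log ρ * h := by
      field_simp
    rw [← h3]
    exact mul_lt_mul_of_pos_right h2 (by positivity)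
  -- the binomial coefficient
  have hk : (p - 1) * r ≤ p * r := Nat.mul_le_mul_right _ (by omega)
  have hN : (2 * n + 1) * h + (p - 1) * r ≤ (2 * n + p) * h := by
    have h1 : (p - 1) * r ≤ (p - 1) * h := Nat.mul_le_mul_left _ hr1'.le
    have h2 : (2 * n + 1) * h + (p - 1) * h = (2 * n + p) * h := by
      rw [← add_mul]
      congr 1
      omega
    omega
  have hYk : Y ^ ((p - 1) * r) ≤ ρ ^ h := by
    have h1 : Y ^ ((p - 1) * r) ≤ Y ^ (p * r) := pow_le_pow_right₀ hY2.le hk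
    refine h1.trans ?_
    rw [← Real.log_le_log_iff (by positivity) (by positivity), Real.log_pow, Real.log_pow]
    push_cast
    nlinarith
  have hC : ((((2 * n + 1) * h + (p - 1) * r).choose ((p - 1) * r) : ℕ) : ℝ) ≤ θ ^ h := by
    refine (choose_le _ _ Y hY0).trans ?_
    have h1 : (1 + 1 / Y) ^ ((2 * n + 1) * h + (p - 1) * r) ≤ A ^ h := by
      rw [hA, ← pow_mul]
      exact pow_le_pow_right₀ (by
        have : 0 < 1 / Y := by positivity
        linarith) hN
    have h2 : A ^ h * ρ ^ h = θ ^ h := by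
      rw [← mul_pow, hρ]
      congr 1
      field_simp
    rw [← h2]
    exact mul_le_mul h1 hYk (by positivity) (by positivity)
  have hMθ : (M : ℝ) ^ h * θ ^ h = ((p : ℝ) ^ h) ^ (2 * n) := by
    rw [← mul_pow, hθ, mul_div_cancel₀ _ hMR.ne', ← pow_mul, ← pow_mul, mul_comm]
  have hrR : (p : ℝ) ^ r * ((p : ℝ) ^ h) ^ (2 * n) ≤ (M : ℝ) ^ h *
      ((((2 * n + 1) * h + (p - 1) * r).choose ((p - 1) * r) : ℕ) : ℝ) := by
    exact_mod_cast hr
  have h5 : (p : ℝ) ^ r * ((p : ℝ) ^ h) ^ (2 * n) ≤ 1 * ((p : ℝ) ^ h) ^ (2 * n) := by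
    rw [one_mul, ← hMθ]
    nth_rewrite 1 [hMθ]
    exact hrR.trans (mul_le_mul_of_nonneg_left hC (by positivity))
  have h6 : (p : ℝ) ^ r ≤ 1 := le_of_mul_le_mul_right h5 (by positivity)
  have h7 : r = 0 := by
    by_contra hr0
    have h8 : (1 : ℝ) < (p : ℝ) ^ r := one_lt_pow₀ (by exact_mod_cast (by omega : 1 < p)) hr0
    linarith
  subst h7
  rw [mul_zero, Nat.choose_zero_right, mul_one, pow_zero, one_mul, ← pow_mul, mul_comm h,
    pow_mul] at hr
  have h9 : M ^ h < (p ^ (2 * n)) ^ h := Nat.pow_lt_pow_left hM (by omega)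
  omega

end Pool.Agent.Rov
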