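import Pool.Agent.Ovo.Fld

namespace Pool.Agent.Rov

open Polynomial

variable {K : Type} [Field K] [Finite K] {q : ℕ} (hK : Nat.card K = q ^ 2)

include hK in
theorem card_norm_le (a : K) : Nat.card {y : K // y * y ^ q = a} ≤ q + 1 := by
  have h2 := Ovo.two_le_q hK
  have hne : (X ^ (q + 1) - C a : K[X]) ≠ 0 := X_pow_sub_C_ne_zero (by omega) a
  have h3 := Ovo.card_roots_le (X ^ (q + 1) - C a : K[X]) hne
  rw [natDegree_X_pow_sub_C] at h3
  simpa [sub_eq_zero, pow_succ'] using h3

include hK in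
/-- Every nonzero element of the small field is the norm of exactly `q + 1` elements. -/
theorem card_norm (a : K) (ha0 : a ≠ 0) (ha : a ^ q = a) :
    Nat.card {y : K // y * y ^ q = a} = q + 1 := by
  classical
  have h2 := Ovo.two_le_q hK
  obtain ⟨bar, hb1, hb2⟩ := Ovo.exists_bar hK
  have i0 : Fintype K := Fintype.ofFinite K
  let Y : Finset K := Finset.univ.filter (fun y => y ≠ 0)
  let B : Finset K := Finset.univ.filter (fun a => a ≠ 0 ∧ a ^ q = a)
  have hY : Y.card = q ^ 2 - 1 := by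
    have e1 : Y = Finset.univ.erase 0 := by
      ext y
      simp [Y]
    rw [e1, Finset.card_erase_of_mem (Finset.mem_univ _), Finset.card_univ,
      ← Nat.card_eq_fintype_card, hK]
  have hB : B.card ≤ q - 1 := by
    have e1 := Ovo.card_fixed hK
    rw [Nat.card_eq_fintype_card, Fintype.card_subtype] at e1
    have e2 : B = (Finset.univ.filter (fun a : K => a ^ q = a)).erase 0 := by
      ext y
      simp [B]
    rw [e2, Finset.card_erase_of_mem (by
      rw [Finset.mem_filter]
      exact ⟨Finset.mem_univ _, zero_pow (by omega)⟩)]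
    omega
  have hmap : ∀ y ∈ Y, y * y ^ q ∈ B := by
    intro y hy
    simp only [Y, B, Finset.mem_filter, Finset.mem_univ, true_and] at hy ⊢
    refine ⟨mul_ne_zero hy (pow_ne_zero _ hy), ?_⟩
    rw [← hb1, ← hb1, map_mul, hb2, mul_comm]
  have hsum := Finset.card_eq_sum_card_fiberwise hmap
  have hfib : ∀ b ∈ B, (Y.filter (fun y => y * y ^ q = b)).card ≤ q + 1 := by
    intro b hb
    have e1 := card_norm_le hK b
    rw [Nat.card_eq_fintype_card, Fintype.card_subtype] at e1
    refine (Finset.card_le_card ?_).trans e1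
    intro y hy
    rw [Finset.mem_filter] at hy ⊢
    exact ⟨Finset.mem_univ _, hy.2⟩
  have haB : a ∈ B := by
    simp only [B, Finset.mem_filter, Finset.mem_univ, true_and]
    exact ⟨ha0, ha⟩
  have hfa : (Y.filter (fun y => y * y ^ q = a)).card = q + 1 := by
    refine le_antisymm (hfib a haB) ?_
    by_contra hcon
    push Not at hcon
    have e1 : ∑ b ∈ B, (Y.filter (fun y => y * y ^ q = b)).card < ∑ b ∈ B, (q + 1) :=
      Finset.sum_lt_sum hfib ⟨a, haB, hcon⟩
    rw [← hsum, Finset.sum_const, smul_eq_mul, hY] at e1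
    have e2 : B.card * (q + 1) ≤ (q - 1) * (q + 1) := Nat.mul_le_mul_right _ hB
    have e3 : (q - 1) * (q + 1) = q ^ 2 - 1 := by
      obtain ⟨k, rfl⟩ : ∃ k, q = k + 1 := ⟨q - 1, by omega⟩
      rw [Nat.add_sub_cancel]
      have : (k + 1) ^ 2 = k * (k + 1 + 1) + 1 := by ring
      omega
    omega
  refine le_antisymm (card_norm_le hK a) ?_
  rw [Nat.card_eq_fintype_card, Fintype.card_subtype, ← hfa]
  apply Finset.card_le_card
  intro y hy
  rw [Finset.mem_filter] at hy ⊢
  exact ⟨Finset.mem_univ _, hy.2⟩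

include hK in
theorem exists_norm (a : K) (ha0 : a ≠ 0) (ha : a ^ q = a) : ∃ y : K, y * y ^ q = a := by
  have h1 := card_norm hK a ha0 ha
  have h2 : 0 < Nat.card {y : K // y * y ^ q = a} := by omega
  obtain ⟨y⟩ := (Nat.card_pos_iff.1 h2).1
  exact ⟨y.1, y.2⟩

include hK in
theorem iso_rec (m : ℕ) :
    Nat.card {x : Fin (m + 1) → K // ∑ i, x i * x i ^ q = 0} +
      q * Nat.card {x : Fin m → K // ∑ i, x i * x i ^ q = 0} = (q + 1) * (q ^ 2) ^ m := by
  classical
  have h2 := Ovo.two_le_q hK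
  obtain ⟨bar, hb1, hb2⟩ := Ovo.exists_bar hK
  have i0 : Fintype K := Fintype.ofFinite K
  let S : (Fin m → K) → K := fun x => ∑ i, x i * x i ^ q
  have e1 : Nat.card {x : Fin (m + 1) → K // ∑ i, x i * x i ^ q = 0} =
      Nat.card (Σ x : Fin m → K, {y : K // y * y ^ q = - S x}) := by
    apply Nat.card_congr
    refine ⟨fun x => ⟨fun i => x.1 i.succ, ⟨x.1 0, ?_⟩⟩, fun z => ⟨Fin.cons z.2.1 z.1, ?_⟩, ?_, ?_⟩
    · have h3 := x.2
      rw [Fin.sum_univ_succ] at h3
      exact eq_neg_of_add_eq_zero_left h3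
    · rw [Fin.sum_univ_succ]
      simp only [Fin.cons_zero, Fin.cons_succ]
      rw [z.2.2]
      exact neg_add_cancel _
    · intro x
      apply Subtype.ext
      funext i
      refine Fin.cases ?_ (fun j => ?_) i
      · rfl
      · rfl
    · rintro ⟨x, y⟩
      rfl
  rw [e1, Nat.card_sigma]
  have e2 : ∀ x : Fin m → K, Nat.card {y : K // y * y ^ q = - S x} + (if S x = 0 then q else 0) =
      q + 1 := by
    intro x
    by_cases hx : S x = 0
    · rw [if_pos hx, hx, neg_zero]
      have h4 : Nat.card {y : K // y * y ^ q = 0} = 1 := by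
        rw [Nat.card_eq_one_iff_unique]
        constructor
        · constructor
          rintro ⟨y, hy⟩ ⟨y', hy'⟩
          have hz : ∀ y : K, y * y ^ q = 0 → y = 0 := by
            intro y hy
            rcases mul_eq_zero.1 hy with h5 | h5
            · exact h5
            · exact eq_zero_of_pow_eq_zero h5
          apply Subtype.ext
          exact (hz y hy).trans (hz y' hy').symm
        · exact ⟨⟨0, by rw [zero_mul]⟩⟩
      rw [h4, add_comm]
    · rw [if_neg hx, add_zero]
      apply card_norm hK _ (neg_ne_zero.2 hx)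
      rw [← hb1, map_neg]
      congr 1
      simp only [S]
      rw [map_sum]
      refine Finset.sum_congr rfl (fun i _ => ?_)
      rw [← hb1, map_mul, hb2, mul_comm]
  have e3 : ∑ x : Fin m → K, (if S x = 0 then q else 0) =
      q * Nat.card {x : Fin m → K // ∑ i, x i * x i ^ q = 0} := by
    rw [← Finset.sum_filter, Finset.sum_const, smul_eq_mul, mul_comm, Nat.card_eq_fintype_card,
      Fintype.card_subtype]
  rw [← e3, ← Finset.sum_add_distrib, Finset.sum_congr rfl (fun x _ => e2 x), Finset.sum_const,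
    smul_eq_mul, Finset.card_univ, mul_comm, Fintype.card_fun, Fintype.card_fin,
    ← Nat.card_eq_fintype_card, hK]

include hK in
theorem iso_formula (m : ℕ) :
    (q : ℤ) * (Nat.card {x : Fin m → K // ∑ i, x i * x i ^ q = 0} : ℤ) =
      (q : ℤ) ^ (2 * m) + (-1) ^ m * ((q : ℤ) - 1) * (q : ℤ) ^ m := by
  induction m with
  | zero =>
    have h1 : Nat.card {x : Fin 0 → K // ∑ i, x i * x i ^ q = 0} = 1 := by
      rw [Nat.card_eq_one_iff_unique]
      constructor
      · infer_instance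
      · exact ⟨⟨Fin.elim0, by simp⟩⟩
    rw [h1]
    simp
  | succ m ih =>
    have h1 := iso_rec hK m
    have h2 : (Nat.card {x : Fin (m + 1) → K // ∑ i, x i * x i ^ q = 0} : ℤ) +
        (q : ℤ) * (Nat.card {x : Fin m → K // ∑ i, x i * x i ^ q = 0} : ℤ) =
        ((q : ℤ) + 1) * ((q : ℤ) ^ 2) ^ m := by
      exact_mod_cast h1
    rw [ih] at h2
    have h3 : (Nat.card {x : Fin (m + 1) → K // ∑ i, x i * x i ^ q = 0} : ℤ) =
        ((q : ℤ) + 1) * ((q : ℤ) ^ 2) ^ m -
          ((q : ℤ) ^ (2 * m) + (-1) ^ m * ((q : ℤ) - 1) * (q : ℤ) ^ m) := by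
      linarith
    rw [h3, ← pow_mul, pow_succ (-1 : ℤ) m, show 2 * (m + 1) = 2 * m + 1 + 1 by ring,
      pow_succ (q : ℤ) (2 * m + 1), pow_succ (q : ℤ) (2 * m), pow_succ (q : ℤ) m]
    ring

include hK in
theorem card_iso (n : ℕ) :
    Nat.card {x : Fin (2 * n + 2) → K // ∑ i, x i * x i ^ q = 0} + q ^ (2 * n + 1) =
      q ^ (4 * n + 3) + q ^ (2 * n + 2) := by
  have h2 := Ovo.two_le_q hK
  have h1 := iso_formula hK (2 * n + 2)
  have h3 : ((-1 : ℤ)) ^ (2 * n + 2) = 1 := by
    rw [show 2 * n + 2 = 2 * (n + 1) by ring, pow_mul]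
    norm_num
  rw [h3, one_mul] at h1
  have hq : (q : ℤ) ≠ 0 := by
    have : q ≠ 0 := by omega
    exact_mod_cast this
  have h4 : (q : ℤ) * ((Nat.card {x : Fin (2 * n + 2) → K // ∑ i, x i * x i ^ q = 0} : ℤ) +
      (q : ℤ) ^ (2 * n + 1)) = (q : ℤ) * ((q : ℤ) ^ (4 * n + 3) + (q : ℤ) ^ (2 * n + 2)) := by
    rw [mul_add, h1]
    ring
  have h5 := mul_left_cancel₀ hq h4
  exact_mod_cast h5

end Pool.Agent.Rov
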