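import Pool.Agent.Rov.Size
import Pool.Agent.Rov.Cnt

namespace Pool.Agent.Rov

/-- A totally isotropic subspace with `q^(2n+2)` vectors. -/
theorem exists_TI {K : Type} [Field K] [Finite K] {q n : ℕ} (hK : Nat.card K = q ^ 2)
    (F : Ovo.HF K (Fin (2 * n + 2) → K)) (hF : ∀ x y, F.H x y = ∑ i, x i * y i ^ q)
    (hb : ∀ a, F.bar a = a ^ q) :
    ∃ M : Submodule K (Fin (2 * n + 2) → K), F.TI M ∧ Nat.card M = q ^ (2 * n + 2) := by
  classical
  have i0 : Fintype K := Fintype.ofFinite K
  obtain ⟨lam, hlam⟩ := exists_norm hK (-1 : K) (neg_ne_zero.2 one_ne_zero) (by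
    rw [← hb, map_neg, map_one])
  let e : Fin (n + 1) ⊕ Fin (n + 1) ≃ Fin (2 * n + 2) :=
    finSumFinEquiv.trans (finCongr (by omega))
  let φ : (Fin (n + 1) → K) →ₗ[K] (Fin (2 * n + 2) → K) :=
    { toFun := fun a i => Sum.elim a (fun j => lam * a j) (e.symm i)
      map_add' := by
        intro a b
        funext i
        show _ = Sum.elim a (fun j => lam * a j) (e.symm i) +
          Sum.elim b (fun j => lam * b j) (e.symm i)
        rcases e.symm i with j | j
        · rfl
        · show lam * (a j + b j) = lam * a j + lam * b j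
          ring
      map_smul' := by
        intro c a
        funext i
        show _ = c * Sum.elim a (fun j => lam * a j) (e.symm i)
        rcases e.symm i with j | j
        · rfl
        · show lam * (c * a j) = c * (lam * a j)
          ring }
  have hφ : ∀ a i, φ a i = Sum.elim a (fun j => lam * a j) (e.symm i) := fun a i => rfl
  have hinj : Function.Injective φ := by
    intro a b hab
    funext j
    have h1 := congrFun hab (e (Sum.inl j))
    rw [hφ, hφ, e.symm_apply_apply] at h1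
    exact h1
  refine ⟨LinearMap.range φ, ?_, ?_⟩
  · rintro _ ⟨a, rfl⟩ _ ⟨b, rfl⟩
    rw [hF, ← e.sum_comp, Fintype.sum_sum_type]
    simp only [hφ, e.symm_apply_apply, Sum.elim_inl, Sum.elim_inr]
    rw [← Finset.sum_add_distrib]
    apply Finset.sum_eq_zero
    intro j _
    rw [mul_pow]
    linear_combination (a j * b j ^ q) * hlam
  · have h1 : Nat.card (LinearMap.range φ) = Nat.card (Fin (n + 1) → K) := by
      symm
      exact Nat.card_congr (Equiv.ofInjective φ hinj)
    rw [h1, Nat.card_eq_fintype_card, Fintype.card_fun, Fintype.card_fin,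
      ← Nat.card_eq_fintype_card, hK, ← pow_mul]
    congr 1

/-- The size of an ovoid. -/
theorem ovoid_vectors {K : Type} [Field K] [Finite K] {q n : ℕ} (hK : Nat.card K = q ^ 2)
    (F : Ovo.HF K (Fin (2 * n + 2) → K)) (hF : ∀ x y, F.H x y = ∑ i, x i * y i ^ q)
    (hb : ∀ a, F.bar a = a ^ q) {S : (Fin (2 * n + 2) → K) → Prop} (hS : F.Ov S) :
    Nat.card {v // S v} = (q ^ 2 - 1) * (q ^ (2 * n + 1) + 1) := by
  classical
  have i0 : Fintype K := Fintype.ofFinite K
  have hq := Ovo.two_le_q hK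
  obtain ⟨θ, hθ⟩ := Ovo.exists_theta hK F.bar hb F.bb
  obtain ⟨M0, hM0, hc0⟩ := exists_TI hK F hF hb
  obtain ⟨M, hM1, hM2⟩ := F.exists_max hM0
  have hVc : Nat.card (Fin (2 * n + 2) → K) = (q ^ (2 * n + 2)) ^ 2 := by
    rw [Nat.card_eq_fintype_card, Fintype.card_fun, Fintype.card_fin,
      ← Nat.card_eq_fintype_card, hK]
    ring
  have hc1 : Nat.card M = q ^ (2 * n + 2) := by
    apply le_antisymm
    · have h1 := F.card_TI hM2.1
      rw [hVc] at h1
      exact (Nat.pow_le_pow_iff_left (by norm_num)).1 h1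
    · rw [← hc0]
      exact Nat.card_le_card_of_injective (fun v : M0 => (⟨v.1, hM1 v.2⟩ : M)) (by
        intro a b hab
        exact Subtype.ext (congrArg (fun z : M => (z : Fin (2 * n + 2) → K)) hab))
  have hB1 : 1 < q ^ (2 * n + 2) := Nat.one_lt_pow (by omega) (by omega)
  have hne : ∃ v0 ∈ M, v0 ≠ 0 := by
    by_contra hcon
    push Not at hcon
    have h1 : Nat.card M ≤ 1 := by
      rw [Finite.card_le_one_iff_subsingleton]
      constructor
      intro a b
      apply Subtype.ext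
      rw [hcon a.1 a.2, hcon b.1 b.2]
    omega
  obtain ⟨v0, hv0, hv00⟩ := hne
  have hsz := ovoid_size F hθ hS hM2 hv0 hv00
  have hiso := card_iso hK n
  have hS0 : Nat.card {v : Fin (2 * n + 2) → K // v ≠ 0 ∧ F.H v v = 0} + 1 =
      Nat.card {x : Fin (2 * n + 2) → K // ∑ i, x i * x i ^ q = 0} := by
    rw [Nat.card_eq_fintype_card, Nat.card_eq_fintype_card, Fintype.card_subtype,
      Fintype.card_subtype]
    have h1 : (Finset.univ.filter (fun v : Fin (2 * n + 2) → K => v ≠ 0 ∧ F.H v v = 0)) =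
        (Finset.univ.filter (fun x : Fin (2 * n + 2) → K => ∑ i, x i * x i ^ q = 0)).erase 0 := by
      ext v
      simp only [Finset.mem_filter, Finset.mem_univ, true_and, Finset.mem_erase, hF]
    rw [h1, Finset.card_erase_add_one]
    rw [Finset.mem_filter]
    exact ⟨Finset.mem_univ _, by simp⟩
  rw [hc1, hK] at hsz
  have hA : q ^ (2 * n + 2) = q * q ^ (2 * n + 1) := by ring
  have hAB : q ^ (4 * n + 3) = q ^ (2 * n + 1) * q ^ (2 * n + 2) := by ring
  have hS1 : Nat.card {v : Fin (2 * n + 2) → K // v ≠ 0 ∧ F.H v v = 0} =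
      (q ^ (2 * n + 2) - 1) * (q ^ (2 * n + 1) + 1) := by
    rw [hAB, ← hS0] at hiso
    obtain ⟨B, hB⟩ : ∃ B, q ^ (2 * n + 2) = B + 1 := ⟨q ^ (2 * n + 2) - 1, by omega⟩
    rw [hB] at hiso ⊢
    rw [Nat.add_sub_cancel]
    have h2 : B * (q ^ (2 * n + 1) + 1) = q ^ (2 * n + 1) * (B + 1) + B - q ^ (2 * n + 1) := by
      have h3 : q ^ (2 * n + 1) * (B + 1) = q ^ (2 * n + 1) * B + q ^ (2 * n + 1) := by ring
      have h4 : B * (q ^ (2 * n + 1) + 1) = q ^ (2 * n + 1) * B + B := by ring
      omega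
    omega
  rw [hS1] at hsz
  apply Nat.eq_of_mul_eq_mul_right (by omega : 0 < q ^ (2 * n + 2) - 1)
  rw [hsz]
  ring

end Pool.Agent.Rov
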