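import Pool.Agent.Ovo.Fld

namespace Pool.Agent.Rov

open Polynomial

variable {K : Type} [Field K] [Finite K] (p : ℕ) [Fact p.Prime] [CharP K p]

omit [Finite K] in
theorem pow_add_p (j : ℕ) (a b : K) : (a + b) ^ p ^ j = a ^ p ^ j + b ^ p ^ j := by
  have : ExpChar K p := ExpChar.prime Fact.out
  exact add_pow_expChar_pow a b p j

/-- The additive map `z ↦ ∑ c_j z^{p^j}`. -/
noncomputable def lin {d : ℕ} (c : Fin d → K) : K →+ K where
  toFun z := ∑ j, c j * z ^ p ^ (j : ℕ)
  map_zero' := by
    apply Finset.sum_eq_zero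
    intro j _
    rw [zero_pow (pow_ne_zero _ (Fact.out : p.Prime).ne_zero), mul_zero]
  map_add' a b := by
    rw [← Finset.sum_add_distrib]
    refine Finset.sum_congr rfl (fun j _ => ?_)
    rw [pow_add_p, mul_add]

omit [Finite K] in
theorem lin_apply {d : ℕ} (c : Fin d → K) (z : K) : lin p c z = ∑ j, c j * z ^ p ^ (j : ℕ) := rfl

theorem moore [Algebra (ZMod p) K] {d : ℕ} (b : Fin d → K) (hb : LinearIndependent (ZMod p) b)
    (y : Fin d → K) : ∃ c : Fin d → K, ∀ i, lin p c (b i) = y i := by
  classical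
  have hp : p.Prime := Fact.out
  let L : (Fin d → K) →ₗ[K] (Fin d → K) :=
    { toFun := fun c i => lin p c (b i)
      map_add' := by
        intro c c'
        funext i
        simp only [lin_apply, Pi.add_apply, add_mul, Finset.sum_add_distrib]
      map_smul' := by
        intro a c
        funext i
        simp only [lin_apply, Pi.smul_apply, smul_eq_mul, mul_assoc, Finset.mul_sum,
          RingHom.id_apply] }
  have hinj : Function.Injective L := by
    rw [injective_iff_map_eq_zero]
    intro c hc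
    by_contra hne
    have hd : ∃ j, c j ≠ 0 := by
      by_contra hcon
      push Not at hcon
      exact hne (funext hcon)
    obtain ⟨j0, hj0⟩ := hd
    let f : K[X] := ∑ j, C (c j) * X ^ p ^ (j : ℕ)
    have hf0 : f ≠ 0 := by
      intro h
      have h1 : f.coeff (p ^ (j0 : ℕ)) = c j0 := by
        simp only [f, finsetSum_coeff, coeff_C_mul, coeff_X_pow]
        rw [Finset.sum_eq_single j0]
        · simp
        · intro j _ hj
          rw [if_neg, mul_zero]
          intro h2
          exact hj (Fin.ext (Nat.pow_right_injective hp.two_le h2).symm)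
        · intro h3
          exact absurd (Finset.mem_univ _) h3
      rw [h] at h1
      exact hj0 h1.symm
    have hdeg : f.natDegree < p ^ d := by
      refine lt_of_le_of_lt (natDegree_sum_le_of_forall_le (n := p ^ (d - 1)) _ _ ?_) ?_
      · intro j _
        refine (natDegree_C_mul_X_pow_le _ _).trans ?_
        exact Nat.pow_le_pow_right hp.pos (by have := j.2; omega)
      · exact Nat.pow_lt_pow_right hp.one_lt (by have := j0.2; omega)
    have hev : ∀ z, f.eval z = lin p c z := by
      intro z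
      simp only [f, lin_apply, eval_finsetSum, eval_mul, eval_C, eval_pow, eval_X]
    let S := Submodule.span (ZMod p) (Set.range b)
    have hS : ∀ z ∈ S, lin p c z = 0 := by
      intro z hz
      have h1 : S ≤ LinearMap.ker ((lin p c).toZModLinearMap p) := by
        rw [Submodule.span_le]
        rintro _ ⟨i, rfl⟩
        exact congrFun hc i
      exact h1 hz
    have hcard : Nat.card S = p ^ d := by
      have i0 : Module.Finite (ZMod p) K := Module.Finite.of_finite
      rw [Module.natCard_eq_pow_finrank (K := ZMod p) (V := S), finrank_span_eq_card hb,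
        Nat.card_zmod, Fintype.card_fin]
    have h2 := Ovo.card_roots_le f hf0
    have h3 : Nat.card S ≤ Nat.card {a : K // f.eval a = 0} := by
      refine Nat.card_le_card_of_injective (fun s => ⟨s.1, by rw [hev]; exact hS _ s.2⟩) ?_
      intro a b' hab
      exact Subtype.ext (congrArg (fun c : {a : K // f.eval a = 0} => (c : K)) hab)
    omega
  have hsur : Function.Surjective L := LinearMap.injective_iff_surjective.1 hinj
  obtain ⟨c, hc⟩ := hsur y
  exact ⟨c, fun i => congrFun hc i⟩

theorem exists_lin [Algebra (ZMod p) K] {h : ℕ} (Z : Submodule (ZMod p) K)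
    (hZ : Nat.card Z ≤ p ^ h) (l : Z →ₗ[ZMod p] ZMod p) :
    ∃ c : Fin h → K, ∀ z : Z, lin p c z = algebraMap (ZMod p) K (l z) := by
  classical
  have hp : p.Prime := Fact.out
  have i0 : Module.Finite (ZMod p) K := Module.Finite.of_finite
  have hd : Module.finrank (ZMod p) Z ≤ h := by
    rw [Module.natCard_eq_pow_finrank (K := ZMod p) (V := Z), Nat.card_zmod] at hZ
    exact (Nat.pow_le_pow_iff_right hp.one_lt).1 hZ
  let b := Module.finBasis (ZMod p) Z
  have hli : LinearIndependent (ZMod p) (fun i => (b i : K)) :=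
    b.linearIndependent.map' Z.subtype (by simp)
  obtain ⟨c, hc⟩ := moore p _ hli (fun i => algebraMap (ZMod p) K (l (b i)))
  refine ⟨fun j => if hj : (j : ℕ) < Module.finrank (ZMod p) Z then c ⟨j, hj⟩ else 0, ?_⟩
  set c' : Fin h → K := fun j => if hj : (j : ℕ) < Module.finrank (ZMod p) Z then c ⟨j, hj⟩ else 0
    with hc'
  have h1 : ∀ z : K, lin p c' z = lin p c z := by
    intro z
    rw [lin_apply, lin_apply]
    symm
    have h2 : ∀ j : Fin (Module.finrank (ZMod p) Z), c j * z ^ p ^ (j : ℕ) =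
        c' (Fin.castLE hd j) * z ^ p ^ ((Fin.castLE hd j : Fin h) : ℕ) := by
      intro j
      simp only [hc', Fin.val_castLE]
      rw [dif_pos j.2]
    rw [Finset.sum_congr rfl (fun j _ => h2 j)]
    rw [← Finset.sum_image (g := Fin.castLE hd) (f := fun j : Fin h => c' j * z ^ p ^ (j : ℕ))
      (s := Finset.univ) (by intro a _ b' _ hab; exact Fin.castLE_injective hd hab)]
    apply Finset.sum_subset (Finset.subset_univ _)
    intro j _ hj
    have h3 : ¬ (j : ℕ) < Module.finrank (ZMod p) Z := by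
      intro h4
      apply hj
      rw [Finset.mem_image]
      exact ⟨⟨j, h4⟩, Finset.mem_univ _, Fin.ext rfl⟩
    simp only [hc']
    rw [dif_neg h3, zero_mul]
  intro z
  rw [h1]
  have h5 : ((lin p c).toZModLinearMap p) ∘ₗ Z.subtype = (Algebra.linearMap (ZMod p) K) ∘ₗ l := by
    apply b.ext
    intro i
    exact hc i
  exact congrFun (congrArg DFunLike.coe h5) z

theorem exists_functionals (h r : ℕ) (Z T : AddSubgroup K) (hTZ : T ≤ Z)
    (hZ : Nat.card Z ≤ p ^ h) (hT : Nat.card T * p ^ r = p ^ h) :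
    ∃ c : Fin r → Fin h → K, ∀ z ∈ Z, z ∉ T → ∏ k, (1 - (lin p (c k) z) ^ (p - 1)) = 0 := by
  classical
  have hp : p.Prime := Fact.out
  let i2 : Algebra (ZMod p) K := ZMod.algebra K p
  have i0 : Module.Finite (ZMod p) K := Module.Finite.of_finite
  let Z' : Submodule (ZMod p) K := AddSubgroup.toZModSubmodule p Z
  let T' : Submodule (ZMod p) K := AddSubgroup.toZModSubmodule p T
  have hTZ' : T' ≤ Z' := hTZ
  have hZ' : Nat.card Z' ≤ p ^ h := hZ
  have hT' : Nat.card T' * p ^ r = p ^ h := hT
  let T2 : Submodule (ZMod p) Z' := T'.comap Z'.subtype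
  have hcT : Nat.card T2 = Nat.card T' := by
    refine Nat.card_congr ⟨fun t => ⟨t.1.1, t.2⟩, fun t => ⟨⟨t.1, hTZ' t.2⟩, t.2⟩, ?_, ?_⟩
    · intro t; rfl
    · intro t; rfl
  have h1 := Submodule.card_eq_card_quotient_mul_card T2
  let v := Module.finBasis (ZMod p) (Z' ⧸ T2)
  have hTpos : 0 < Nat.card T' := Nat.card_pos
  have hr : Module.finrank (ZMod p) (Z' ⧸ T2) ≤ r := by
    have h2 : Nat.card (Z' ⧸ T2) = p ^ Module.finrank (ZMod p) (Z' ⧸ T2) := by
      rw [Module.natCard_eq_pow_finrank (K := ZMod p) (V := Z' ⧸ T2), Nat.card_zmod]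
    rw [hcT, h2] at h1
    rw [← hT', h1] at hZ'
    rw [← Nat.pow_le_pow_iff_right hp.one_lt]
    exact Nat.le_of_mul_le_mul_left (by linarith) hTpos
  have h3 : ∀ k : Fin (Module.finrank (ZMod p) (Z' ⧸ T2)), ∃ c : Fin h → K, ∀ z : Z',
      lin p c z = algebraMap (ZMod p) K (v.repr (T2.mkQ z) k) := by
    intro k
    exact exists_lin p Z' hZ' ((v.coord k) ∘ₗ T2.mkQ)
  choose c hc using h3
  refine ⟨fun k => if hk : (k : ℕ) < Module.finrank (ZMod p) (Z' ⧸ T2) then c ⟨k, hk⟩ else 0, ?_⟩
  intro z hz hzT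
  have hz' : z ∈ Z' := hz
  have h4 : T2.mkQ ⟨z, hz'⟩ ≠ 0 := by
    intro h5
    rw [Submodule.mkQ_apply, Submodule.Quotient.mk_eq_zero] at h5
    exact hzT h5
  have h6 : ∃ k, v.repr (T2.mkQ ⟨z, hz'⟩) k ≠ 0 := by
    by_contra hcon
    push Not at hcon
    apply h4
    apply v.repr.injective
    rw [map_zero]
    exact Finsupp.ext hcon
  obtain ⟨k, hk⟩ := h6
  apply Finset.prod_eq_zero (Finset.mem_univ (Fin.castLE hr k))
  have h7 : (if hk : ((Fin.castLE hr k : Fin r) : ℕ) < Module.finrank (ZMod p) (Z' ⧸ T2) then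
      c ⟨((Fin.castLE hr k : Fin r) : ℕ), hk⟩ else 0) = c k := by
    rw [dif_pos (by exact k.2)]
    rfl
  beta_reduce
  rw [h7, hc k ⟨z, hz'⟩, ← map_pow, ZMod.pow_card_sub_one_eq_one hk, map_one, sub_self]

end Pool.Agent.Rov
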