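import Pool.Agent.Rov.Gen
import Pool.Agent.Rov.Fun
import Pool.Agent.Ovo.Herm

namespace Pool.Agent.Rov

theorem prod_frob {R : Type} [CommRing R] (p h : ℕ) (hp : 1 ≤ p) (a : R) :
    ∏ j : Fin h, (a ^ (p - 1)) ^ p ^ (j : ℕ) = a ^ (p ^ h - 1) := by
  induction h with
  | zero => simp
  | succ h ih =>
    rw [Fin.prod_univ_castSucc]
    simp only [Fin.val_castSucc, Fin.val_last]
    rw [ih, ← pow_mul, ← pow_add]
    congr 1
    have h1 : 1 ≤ p ^ h := Nat.one_le_pow _ _ hp
    have h2 : (p - 1) * p ^ h = p ^ (h + 1) - p ^ h := by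
      rw [Nat.sub_mul, one_mul, pow_succ']
    rw [h2]
    have h3 : p ^ h ≤ p ^ (h + 1) := Nat.pow_le_pow_right hp (by omega)
    omega

theorem prod_mem_pow {K A ι : Type} [Field K] [CommRing A] [Algebra K A] (N : Submodule K A)
    (s : Finset ι) (f : ι → A) (hf : ∀ i, f i ∈ N) : ∏ i ∈ s, f i ∈ N ^ s.card := by
  classical
  induction s using Finset.induction_on with
  | empty =>
    rw [Finset.prod_empty, Finset.card_empty, pow_zero]
    exact Submodule.one_le.1 le_rfl
  | insert i s his ih =>
    rw [Finset.prod_insert his, Finset.card_insert_of_notMem his, pow_succ']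
    exact Submodule.mul_mem_mul (hf i) ih

theorem prod_mem_prod {K A ι : Type} [Field K] [CommRing A] [Algebra K A] (N : ι → Submodule K A)
    (s : Finset ι) (f : ι → A) (hf : ∀ i, f i ∈ N i) : ∏ i ∈ s, f i ∈ ∏ i ∈ s, N i := by
  classical
  induction s using Finset.induction_on with
  | empty =>
    rw [Finset.prod_empty, Finset.prod_empty]
    exact Submodule.one_le.1 le_rfl
  | insert i s his ih =>
    rw [Finset.prod_insert his, Finset.prod_insert his]
    exact Submodule.mul_mem_mul (hf i) ih

/-- Linear functionals come from vectors. -/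
theorem riesz {K V : Type} [Field K] [Finite K] [AddCommGroup V] [Module K V] [Module.Finite K V]
    (F : Ovo.HF K V) (f : V →ₗ[K] K) : ∃ v, ∀ u, f u = F.H u v := by
  classical
  have i1 : Finite V := Module.finite_of_finite K
  have i3 : Finite (Module.Dual K V) :=
    Finite.of_injective (fun φ : Module.Dual K V => (φ : V → K)) DFunLike.coe_injective
  let g : V → Module.Dual K V := fun v =>
    { toFun := fun u => F.H u v, map_add' := fun u w => F.addl u w v,
      map_smul' := fun a u => by simp [F.smull] }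
  have hg : Function.Injective g := by
    intro v v' hvv
    have h1 : ∀ u, F.H u v = F.H u v' := fun u => congrFun (congrArg DFunLike.coe hvv) u
    have h2 : v - v' = 0 := F.nd _ (by intro u; rw [F.subr, h1 u, sub_self])
    exact sub_eq_zero.1 h2
  have hc : Nat.card (Module.Dual K V) ≤ Nat.card V := by
    rw [Module.natCard_eq_pow_finrank (K := K) (V := V),
      Module.natCard_eq_pow_finrank (K := K) (V := Module.Dual K V), Subspace.dual_finrank_eq]
  have hb := hg.bijective_of_nat_card_le hc
  obtain ⟨v, hv⟩ := hb.2 f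
  exact ⟨v, fun u => by rw [← hv]; rfl⟩

/-- The rank bound. -/
theorem core {K V : Type} [Field K] [Finite K] [AddCommGroup V] [Module K V] [Module.Finite K V]
    (F : Ovo.HF K V) (p h r : ℕ) [Fact p.Prime] [CharP K p]
    (hbar : ∀ a, F.bar a = a ^ p ^ h) (hK : Nat.card K = (p ^ h) ^ 2)
    (x : V) (hxx : F.H x x = 0) (T : AddSubgroup K)
    (hTZ : ∀ t ∈ T, t + t ^ p ^ h = 0) (hT : Nat.card T * p ^ r = p ^ h)
    (C : Finset V) (hC1 : ∀ w ∈ C, F.H w x = 1) (hC2 : ∀ w ∈ C, F.H w w = 0)
    (hC3 : ∀ w ∈ C, ∀ w' ∈ C, w ≠ w' → F.H w w' ∉ T) :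
    C.card ≤ (Nat.multichoose (2 * (Module.finrank K V - 2) + 1) (p - 1) +
        Nat.multichoose (2 * (Module.finrank K V - 2) + 1) (p - 2)) ^ h *
      Nat.multichoose (h * (Module.finrank K V - 1) + 1) ((p - 1) * r) := by
  classical
  have hp : p.Prime := Fact.out
  have hq2 : 2 ≤ p ^ h := Ovo.two_le_q hK
  rcases C.eq_empty_or_nonempty with rfl | ⟨w0, hw0⟩
  · simp
  have hw0x : F.H w0 x = 1 := hC1 w0 hw0
  have hxw0 : F.H x w0 = 1 := by rw [← F.symm, hw0x, map_one]
  let ι : Type := {w // w ∈ C}
  let A : Type := ι → K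
  have i1 : Nonempty ι := ⟨⟨w0, hw0⟩⟩
  have i2 : CharP A p := inferInstanceAs (CharP (ι → K) p)
  set m := Module.finrank K V with hm
  have hxne : x ≠ w0 := by
    intro e
    rw [← e, hxx] at hw0x
    exact zero_ne_one hw0x
  have hli : LinearIndepOn K id ((({x, w0} : Finset V) : Finset V) : Set V) := by
    rw [Finset.coe_insert, Finset.coe_singleton]
    rw [LinearIndepOn.pair_iff id hxne]
    intro a b hab
    simp only [id] at hab
    have e1 : F.H (a • x + b • w0) x = 0 := by rw [hab, F.zerol]
    have e2 : F.H (a • x + b • w0) w0 = 0 := by rw [hab, F.zerol]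
    rw [F.addl, F.smull, F.smull, hxx, hw0x] at e1
    rw [F.addl, F.smull, F.smull, hxw0, hC2 w0 hw0] at e2
    constructor
    · linear_combination e2
    · linear_combination e1
  obtain ⟨s, hs, hsV⟩ := exchange ({x, w0} : Finset V) hli
  rw [Finset.card_pair hxne, ← hm] at hs
  have hS : ⊤ ≤ Submodule.span K (({x, w0} : Set V) ∪ (s : Set V)) := by
    rwa [Finset.coe_insert, Finset.coe_singleton] at hsV
  -- the projection
  let z : V → V := fun w => w - w0 - F.H w w0 • x
  have hzx : ∀ w ∈ C, F.H (z w) x = 0 := by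
    intro w hw
    simp only [z]
    rw [F.subl, F.subl, F.smull, hC1 w hw, hw0x, hxx, mul_zero, sub_self, sub_zero]
  have hzw0 : ∀ w ∈ C, F.H (z w) w0 = 0 := by
    intro w hw
    simp only [z]
    rw [F.subl, F.subl, F.smull, hC2 w0 hw0, hxw0, mul_one, sub_zero, sub_self]
  have hxw : ∀ w ∈ C, F.H x w = 1 := by
    intro w hw
    rw [← F.symm, hC1 w hw, map_one]
  have hzz : ∀ w ∈ C, ∀ w' ∈ C, F.H (z w) (z w') = F.H w w' - F.H w w0 - F.H w0 w' := by
    intro w hw w' hw'
    have e1 : F.H (z w) (z w') = F.H (z w) w' := by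
      have : z w' = w' - w0 - F.H w' w0 • x := rfl
      rw [this, F.subr, F.subr, F.smulr, hzx w hw, hzw0 w hw, mul_zero, sub_zero, sub_zero]
    rw [e1]
    simp only [z]
    rw [F.subl, F.subl, F.smull, hxw w' hw', mul_one]
    ring
  have hsym : ∀ w ∈ C, ∀ w' ∈ C, F.H w w' + F.H w' w =
      - F.H (z w) (z w) - F.H (z w') (z w') + F.H (z w) (z w') + F.H (z w') (z w) := by
    intro w hw w' hw'
    rw [hzz w hw w hw, hzz w' hw' w' hw', hzz w hw w' hw', hzz w' hw' w hw, hC2 w hw, hC2 w' hw']
    ring
  -- the functions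
  let Φ : V → A := fun v w => F.H v (z w)
  let Ψ : V → A := fun v w => F.H (z w) v
  have hΦx : Φ x = 0 := by
    funext w
    show F.H x (z w) = 0
    exact F.sw (hzx w w.2)
  have hΦw : Φ w0 = 0 := by
    funext w
    show F.H w0 (z w) = 0
    exact F.sw (hzw0 w w.2)
  have hΨx : Ψ x = 0 := by
    funext w
    exact hzx w w.2
  have hΨw : Ψ w0 = 0 := by
    funext w
    exact hzw0 w w.2
  let SF0 : Finset A := s.image Φ ∪ s.image Ψ
  let F0 : Submodule K A := Submodule.span K (SF0 : Set A)
  have hSF0 : SF0.card ≤ 2 * (m - 2) := by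
    have e1 := Finset.card_union_le (s.image Φ) (s.image Ψ)
    have e2 := Finset.card_image_le (s := s) (f := Φ)
    have e3 := Finset.card_image_le (s := s) (f := Ψ)
    show (s.image Φ ∪ s.image Ψ).card ≤ _
    omega
  have hGF0 : Gen K F0 (2 * (m - 2)) := ⟨SF0, hSF0, le_rfl⟩
  have hΦF : ∀ v, Φ v ∈ F0 := by
    apply twist Φ (fun a => a) (by funext w; exact F.zerol _)
      (by intro u v; funext w; exact F.addl _ _ _) (by intro a u; funext w; exact F.smull _ _ _)
      _ hS F0
    intro y hy
    simp only [Set.mem_union, Set.mem_insert_iff, Set.mem_singleton_iff, Finset.mem_coe] at hy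
    rcases hy with (rfl | rfl) | hy
    · rw [hΦx]; exact Submodule.zero_mem _
    · rw [hΦw]; exact Submodule.zero_mem _
    · apply Submodule.subset_span
      rw [Finset.mem_coe]
      exact Finset.mem_union_left _ (Finset.mem_image_of_mem _ hy)
  have hΨF : ∀ v, Ψ v ∈ F0 := by
    apply twist Ψ (fun a => F.bar a) (by funext w; exact F.zeror _)
      (by intro u v; funext w; exact F.addr _ _ _) (by intro a u; funext w; exact F.smulr _ _ _)
      _ hS F0
    intro y hy
    simp only [Set.mem_union, Set.mem_insert_iff, Set.mem_singleton_iff, Finset.mem_coe] at hy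
    rcases hy with (rfl | rfl) | hy
    · rw [hΨx]; exact Submodule.zero_mem _
    · rw [hΨw]; exact Submodule.zero_mem _
    · apply Submodule.subset_span
      rw [Finset.mem_coe]
      exact Finset.mem_union_right _ (Finset.mem_image_of_mem _ hy)
  let N : A := fun w => F.H (z w) (z w)
  let L : Submodule K A := Submodule.span K {N}
  have hNF : N ∈ F0 * F0 := by
    let b := Module.finBasis K V
    have h1 : ∀ i, ∃ v, ∀ u, b.coord i u = F.H u v := fun i => riesz F (b.coord i)
    choose v hv using h1
    have h2 : N = ∑ i, Ψ (v i) * Φ (b i) := by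
      funext w
      rw [Finset.sum_apply]
      have h3 : z w = ∑ i, F.H (z w) (v i) • b i := by
        conv_lhs => rw [← b.sum_repr (z w)]
        refine Finset.sum_congr rfl (fun i _ => ?_)
        rw [← hv i (z w)]
        rfl
      have h4 : ∀ (g : V →ₗ[K] K), g (z w) = ∑ i, F.H (z w) (v i) * g (b i) := by
        intro g
        conv_lhs => rw [h3]
        rw [map_sum]
        refine Finset.sum_congr rfl (fun i _ => ?_)
        rw [map_smul, smul_eq_mul]
      exact h4 { toFun := fun u => F.H u (z w), map_add' := fun u u' => F.addl u u' _,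
                 map_smul' := fun a u => by simp [F.smull] }
    rw [h2]
    exact Submodule.sum_mem _ (fun i _ => Submodule.mul_mem_mul (hΨF _) (hΦF _))
  have hL : L ≤ F0 * F0 := by
    rw [Submodule.span_le, Set.singleton_subset_iff]
    exact hNF
  let E' : Submodule K A := 1 ⊔ L ⊔ F0
  have hcst : ∀ a : K, (fun _ : ι => a) ∈ E' := by
    intro a
    have e1 : (fun _ : ι => a) = a • (1 : A) := by
      funext w
      show a = a * 1
      rw [mul_one]
    rw [e1]
    apply Submodule.smul_mem
    exact Submodule.mem_sup_left (Submodule.mem_sup_left (Submodule.one_le.1 le_rfl))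
  have h1E : (1 : A) ∈ E' := hcst 1
  have heE : ∀ w' ∈ C, (fun (w : ι) => F.H (w : V) w' + F.H w' (w : V)) ∈ E' := by
    intro w' hw'
    have e1 : (fun (w : ι) => F.H (w : V) w' + F.H w' (w : V)) =
        - N - (fun _ : ι => F.H (z w') (z w')) + Ψ (z w') + Φ (z w') := by
      funext w
      exact hsym w w.2 w' hw'
    rw [e1]
    have e2 : N ∈ E' :=
      Submodule.mem_sup_left (Submodule.mem_sup_right (Submodule.mem_span_singleton_self N))
    exact Submodule.add_mem _ (Submodule.add_mem _ (Submodule.sub_mem _ (Submodule.neg_mem _ e2)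
      (hcst _)) (Submodule.mem_sup_right (hΨF _))) (Submodule.mem_sup_right (hΦF _))
  have hGE : Gen K (E' ^ (p - 1)) (Nat.multichoose (2 * (m - 2) + 1) (p - 1) +
      Nat.multichoose (2 * (m - 2) + 1) (p - 2)) := by
    have e1 := Gen.quad L F0 hL hGF0 (Gen.singleton N) (p - 2)
    have e2 : p - 2 + 1 = p - 1 := by have := hp.two_le; omega
    rw [e2] at e1
    exact e1
  -- the second space
  let θ : Fin h → V → A := fun j v w => (F.H (w : V) v) ^ p ^ (j : ℕ)
  have hθx : ∀ j, θ j x = 1 := by
    intro j
    funext w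
    show (F.H (w : V) x) ^ p ^ (j : ℕ) = 1
    rw [hC1 w w.2, one_pow]
  let SF : Finset A := insert 1 (Finset.univ.biUnion (fun j => (insert w0 s).image (θ j)))
  let F' : Submodule K A := Submodule.span K (SF : Set A)
  have hSF : SF.card ≤ h * (m - 1) + 1 := by
    have e1 := Finset.card_insert_le (1 : A)
      (Finset.univ.biUnion (fun j => (insert w0 s).image (θ j)))
    have e2 : (Finset.univ.biUnion (fun j => (insert w0 s).image (θ j))).card ≤
        (Finset.univ : Finset (Fin h)).card * (m - 1) := by
      apply Finset.card_biUnion_le_card_mul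
      intro j _
      have e3 := Finset.card_image_le (s := insert w0 s) (f := θ j)
      have e4 := Finset.card_insert_le w0 s
      omega
    rw [Finset.card_univ, Fintype.card_fin] at e2
    show (insert 1 (Finset.univ.biUnion (fun j => (insert w0 s).image (θ j)))).card ≤ _
    omega
  have hGF : Gen K F' (h * (m - 1) + 1) := ⟨SF, hSF, le_rfl⟩
  have h1F : (1 : A) ∈ F' := Submodule.subset_span (by
    rw [Finset.mem_coe]; exact Finset.mem_insert_self _ _)
  have hRF : ∀ (j : Fin h) (v : V), (fun (w : ι) => (F.H (w : V) v) ^ p ^ (j : ℕ)) ∈ F' := by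
    intro j
    apply twist (θ j) (fun a => F.bar a ^ p ^ (j : ℕ))
      (by funext w; show (F.H (w : V) 0) ^ p ^ (j : ℕ) = 0
          rw [F.zeror, zero_pow (pow_ne_zero _ hp.ne_zero)])
      (by intro u v; funext w
          show (F.H (w : V) (u + v)) ^ p ^ (j : ℕ) = _
          rw [F.addr, pow_add_p]; rfl)
      (by intro a u; funext w
          show (F.H (w : V) (a • u)) ^ p ^ (j : ℕ) = _
          rw [F.smulr, mul_pow]; rfl) _ hS F'
    intro y hy
    simp only [Set.mem_union, Set.mem_insert_iff, Set.mem_singleton_iff, Finset.mem_coe] at hy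
    have e5 : y = x ∨ y ∈ insert w0 s := by
      rw [Finset.mem_insert]
      tauto
    rcases e5 with rfl | hy
    · rw [hθx]
      exact h1F
    · apply Submodule.subset_span
      rw [Finset.mem_coe]
      apply Finset.mem_insert_of_mem
      rw [Finset.mem_biUnion]
      exact ⟨j, Finset.mem_univ _, Finset.mem_image_of_mem _ hy⟩
  -- the functionals
  let Z : AddSubgroup K :=
    { carrier := {t | t + t ^ p ^ h = 0}
      zero_mem' := by
        simp only [Set.mem_ofPred_eq]
        rw [zero_pow (by omega), add_zero]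
      add_mem' := by
        intro a b ha hb
        simp only [Set.mem_ofPred_eq] at ha hb ⊢
        rw [pow_add_p]
        linear_combination ha + hb
      neg_mem' := by
        intro a ha
        simp only [Set.mem_ofPred_eq] at ha ⊢
        rw [← hbar] at ha ⊢
        rw [map_neg, ← neg_add, ha, neg_zero] }
  have hZc : Nat.card Z ≤ p ^ h := Ovo.card_trace_zero hK
  obtain ⟨c, hc⟩ := exists_functionals p h r Z T hTZ hZc hT
  have hGr : ∀ j : Fin h, ∃ G : Submodule K A,
      Gen K G (Nat.multichoose (2 * (m - 2) + 1) (p - 1) +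
        Nat.multichoose (2 * (m - 2) + 1) (p - 2)) ∧ ∀ u ∈ E' ^ (p - 1), u ^ p ^ (j : ℕ) ∈ G := by
    intro j
    exact Gen.frob hGE p (j : ℕ)
  choose G hG hGmem using hGr
  have hGW := (Gen.prod Finset.univ G hG).mul (hGF.pow ((p - 1) * r))
  rw [Finset.card_univ, Fintype.card_fin] at hGW
  have hmain : ∀ i : ι, (Pi.single i 1 : ι → K) ∈ (∏ j, G j) * F' ^ ((p - 1) * r) := by
    rintro ⟨w', hw'⟩
    have e1 : (Pi.single (⟨w', hw'⟩ : ι) 1 : ι → K) =
        (1 - ∏ j : Fin h, ((fun (w : ι) => F.H (w : V) w' + F.H w' (w : V)) ^ (p - 1)) ^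
          p ^ (j : ℕ)) * ∏ k : Fin r, (1 - (fun (w : ι) => lin p (c k) (F.H (w : V) w')) ^ (p - 1)) := by
      rw [prod_frob p h hp.one_le]
      funext w
      simp only [Pi.mul_apply, Pi.sub_apply, Pi.one_apply, Pi.pow_apply, Finset.prod_apply]
      by_cases hw : w = ⟨w', hw'⟩
      · subst hw
        rw [Pi.single_eq_same, hC2 w' hw', add_zero, zero_pow (by omega), sub_zero, one_mul]
        symm
        apply Finset.prod_eq_one
        intro k _
        rw [map_zero, zero_pow (by have := hp.two_le; omega), sub_zero]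
      · rw [Pi.single_eq_of_ne hw]
        have hne : (w : V) ≠ w' := fun h4 => hw (Subtype.ext h4)
        have hXT := hC3 w w.2 w' hw' hne
        by_cases hX : F.H (w : V) w' + F.H w' (w : V) = 0
        · have hXZ : F.H (w : V) w' ∈ Z := by
            show F.H (w : V) w' + (F.H (w : V) w') ^ p ^ h = 0
            rw [← hbar, F.symm, hX]
          rw [hc _ hXZ hXT, mul_zero]
        · have e2 : (F.H (w : V) w' + F.H w' (w : V)) ^ p ^ h = F.H (w : V) w' + F.H w' (w : V) := by
            rw [← hbar, map_add, F.symm, F.symm, add_comm]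
          have e3 : (F.H (w : V) w' + F.H w' (w : V)) ^ (p ^ h - 1) = 1 := by
            have e4 : (F.H (w : V) w' + F.H w' (w : V)) ^ (p ^ h - 1) *
                (F.H (w : V) w' + F.H w' (w : V)) = 1 * (F.H (w : V) w' + F.H w' (w : V)) := by
              rw [← pow_succ, Nat.sub_add_cancel (by omega), e2, one_mul]
            exact mul_right_cancel₀ hX e4
          rw [e3, sub_self, zero_mul]
    rw [e1]
    apply Submodule.mul_mem_mul
    · apply Submodule.sub_mem
      · have e5 : (1 : A) = ∏ j : Fin h, ((1 : A) ^ (p - 1)) ^ p ^ (j : ℕ) := by simp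
        rw [e5]
        exact prod_mem_prod G _ _ (fun j => hGmem j _ (Submodule.pow_mem_pow _ h1E _))
      · exact prod_mem_prod G _ _ (fun j => hGmem j _ (Submodule.pow_mem_pow _ (heE w' hw') _))
    · rw [pow_mul]
      have e6 := prod_mem_pow (F' ^ (p - 1)) (Finset.univ : Finset (Fin r))
        (fun k => 1 - (fun (w : ι) => lin p (c k) (F.H (w : V) w')) ^ (p - 1)) ?_
      · rw [Finset.card_univ, Fintype.card_fin] at e6
        exact e6
      · intro k
        apply Submodule.sub_mem
        · have e7 := Submodule.pow_mem_pow F' h1F (p - 1)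
          rwa [one_pow] at e7
        · apply Submodule.pow_mem_pow
          have e8 : (fun (w : ι) => lin p (c k) (F.H (w : V) w')) =
              ∑ j : Fin h, c k j • (fun (w : ι) => (F.H (w : V) w') ^ p ^ (j : ℕ)) := by
            funext w
            rw [lin_apply, Finset.sum_apply]
            rfl
          rw [e8]
          exact Submodule.sum_mem _ (fun j _ => Submodule.smul_mem _ _ (hRF j w'))
  have hfin := card_le_of_single _ hGW hmain
  rwa [Fintype.card_coe] at hfin

end Pool.Agent.Rov
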