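import Mathlib

namespace Pool.Agent.Rov

open scoped Pointwise

/-- `E` is contained in the span of at most `d` elements. -/
def Gen (K : Type) {A : Type} [Field K] [CommRing A] [Algebra K A] (E : Submodule K A) (d : ℕ) :
    Prop :=
  ∃ s : Finset A, s.card ≤ d ∧ E ≤ Submodule.span K (s : Set A)

variable {K A : Type} [Field K] [CommRing A] [Algebra K A]

theorem Gen.mono {E F : Submodule K A} {a b : ℕ} (hF : Gen K F b) (hEF : E ≤ F) (hab : b ≤ a) :
    Gen K E a := by
  obtain ⟨s, hs, hEs⟩ := hF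
  exact ⟨s, hs.trans hab, hEF.trans hEs⟩

theorem Gen.mul {E F : Submodule K A} {a b : ℕ} (hE : Gen K E a) (hF : Gen K F b) :
    Gen K (E * F) (a * b) := by
  classical
  obtain ⟨s, hs, hEs⟩ := hE
  obtain ⟨t, ht, hFt⟩ := hF
  refine ⟨s * t, (Finset.card_mul_le).trans (Nat.mul_le_mul hs ht), ?_⟩
  rw [Finset.coe_mul, ← Submodule.span_mul_span]
  exact mul_le_mul' hEs hFt

theorem Gen.one : Gen K (1 : Submodule K A) 1 :=
  ⟨{1}, by simp, by rw [Submodule.one_eq_span, Finset.coe_singleton]⟩

theorem Gen.prod {ι : Type} (s : Finset ι) (E : ι → Submodule K A) {a : ℕ}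
    (h : ∀ i, Gen K (E i) a) : Gen K (∏ i ∈ s, E i) (a ^ s.card) := by
  classical
  induction s using Finset.induction_on with
  | empty => simpa using Gen.one
  | insert i s his ih =>
    rw [Finset.prod_insert his, Finset.card_insert_of_notMem his, pow_succ']
    exact (h i).mul ih

theorem multichoose_mono {a b : ℕ} (h : a ≤ b) (k : ℕ) :
    Nat.multichoose a k ≤ Nat.multichoose b k := by
  rw [Nat.multichoose_eq, Nat.multichoose_eq]
  exact Nat.choose_le_choose k (by omega)

theorem span_pow_le {ι : Type} (f : ι → A) (k : ℕ) :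
    (Submodule.span K (Set.range f)) ^ k ≤
      Submodule.span K (Set.range (fun σ : Sym ι k => ((σ : Multiset ι).map f).prod)) := by
  induction k with
  | zero =>
    rw [pow_zero, Submodule.one_eq_span]
    apply Submodule.span_mono
    rw [Set.singleton_subset_iff]
    exact ⟨Sym.nil, by simp⟩
  | succ k ih =>
    rw [pow_succ]
    refine (mul_le_mul' ih le_rfl).trans ?_
    rw [Submodule.span_mul_span]
    apply Submodule.span_mono
    rintro _ ⟨_, ⟨σ, rfl⟩, _, ⟨i, rfl⟩, rfl⟩
    refine ⟨i ::ₛ σ, ?_⟩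
    have h1 : ((i ::ₛ σ : Sym ι (k + 1)) : Multiset ι) = i ::ₘ (σ : Multiset ι) := rfl
    show (((i ::ₛ σ : Sym ι (k + 1)) : Multiset ι).map f).prod = _
    rw [h1, Multiset.map_cons, Multiset.prod_cons, mul_comm]

theorem Gen.pow {E : Submodule K A} {a : ℕ} (hE : Gen K E a) (k : ℕ) :
    Gen K (E ^ k) (Nat.multichoose a k) := by
  classical
  obtain ⟨s, hs, hEs⟩ := hE
  refine ⟨Finset.univ.image (fun σ : Sym s k => ((σ : Multiset s).map (fun i => (i : A))).prod),
    ?_, ?_⟩
  · refine Finset.card_image_le.trans ?_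
    rw [Finset.card_univ, Sym.card_sym_eq_multichoose, Fintype.card_coe]
    exact multichoose_mono hs k
  · have h1 : Submodule.span K (s : Set A) = Submodule.span K (Set.range (fun i : s => (i : A))) := by
      rw [Subtype.range_coe_subtype]
      rfl
    have h2 := span_pow_le (K := K) (fun i : s => (i : A)) k
    rw [← h1] at h2
    refine (pow_le_pow_left' hEs k).trans (h2.trans ?_)
    apply Submodule.span_mono
    rintro _ ⟨σ, rfl⟩
    simp

/-- Frobenius twist. -/
theorem Gen.frob {E : Submodule K A} {a : ℕ} (hE : Gen K E a) (p : ℕ) [Fact p.Prime] [CharP A p]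
    (j : ℕ) : ∃ F : Submodule K A, Gen K F a ∧ ∀ u ∈ E, u ^ p ^ j ∈ F := by
  classical
  obtain ⟨s, hs, hEs⟩ := hE
  have hE : ExpChar A p := ExpChar.prime Fact.out
  refine ⟨Submodule.span K ((s.image (fun u => u ^ p ^ j) : Finset A) : Set A),
    ⟨s.image (fun u => u ^ p ^ j), Finset.card_image_le.trans hs, le_rfl⟩, ?_⟩
  intro u hu
  have h1 := hEs hu
  refine Submodule.span_induction (p := fun u _ => u ^ p ^ j ∈ Submodule.span K
    ((s.image (fun u => u ^ p ^ j) : Finset A) : Set A)) ?_ ?_ ?_ ?_ h1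
  · intro y hy
    apply Submodule.subset_span
    rw [Finset.coe_image]
    exact ⟨y, hy, rfl⟩
  · rw [zero_pow (pow_ne_zero _ (Fact.out : p.Prime).ne_zero)]
    exact Submodule.zero_mem _
  · intro y z _ _ hy hz
    rw [add_pow_expChar_pow]
    exact Submodule.add_mem _ hy hz
  · intro c y _ hy
    rw [smul_pow]
    exact Submodule.smul_mem _ _ hy

theorem Gen.sup {E F : Submodule K A} {a b : ℕ} (hE : Gen K E a) (hF : Gen K F b) :
    Gen K (E ⊔ F) (a + b) := by
  classical
  obtain ⟨s, hs, hEs⟩ := hE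
  obtain ⟨t, ht, hFt⟩ := hF
  refine ⟨s ∪ t, (Finset.card_union_le s t).trans (Nat.add_le_add hs ht), ?_⟩
  rw [Finset.coe_union, Submodule.span_union]
  exact sup_le_sup hEs hFt

theorem Gen.singleton (a : A) : Gen K (Submodule.span K {a}) 1 :=
  ⟨{a}, by simp, by rw [Finset.coe_singleton]⟩

section quad

variable (L P Q F : Submodule K A) (hL : L ≤ F * F)

include hL in
theorem quad_L (hPF : F ≤ P) (hQF : F ≤ Q) (hQ : Q = L ⊔ F) (k : ℕ) :
    L * Q ^ k ≤ P ^ (k + 2) ⊔ L * Q ^ (k + 1) := by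
  induction k with
  | zero =>
    refine le_sup_of_le_left ?_
    rw [pow_zero, mul_one, zero_add, pow_two]
    exact hL.trans (mul_le_mul' hPF hPF)
  | succ k ih =>
    have e1 : L * Q ^ (k + 1) = L * Q ^ k * L ⊔ L * Q ^ k * F := by
      rw [pow_succ, ← mul_assoc]
      nth_rewrite 2 [hQ]
      rw [Submodule.mul_sup]
    rw [e1]
    apply sup_le
    · refine le_sup_of_le_right ?_
      have e2 : L * Q ^ (k + 1 + 1) = L * Q ^ k * (Q * Q) := by ring
      rw [e2]
      exact mul_le_mul' le_rfl (hL.trans (mul_le_mul' hQF hQF))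
    · refine (mul_le_mul' ih le_rfl).trans ?_
      rw [Submodule.sup_mul]
      apply sup_le
      · refine le_sup_of_le_left ?_
        rw [show k + 1 + 2 = (k + 2) + 1 by ring, pow_succ P (k + 2)]
        exact mul_le_mul' le_rfl hPF
      · refine le_sup_of_le_right ?_
        rw [pow_succ Q (k + 1), ← mul_assoc]
        exact mul_le_mul' le_rfl hQF

include hL in
theorem quad_P (hPF : F ≤ P) (hQF : F ≤ Q) (hP : P = 1 ⊔ F) (k : ℕ) :
    P ^ k * L ≤ P ^ (k + 1) ⊔ L * Q ^ k := by
  induction k with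
  | zero =>
    refine le_sup_of_le_right ?_
    rw [pow_zero, pow_zero, mul_one, one_mul]
  | succ k ih =>
    have e1 : P ^ (k + 1) * L = P ^ k * L ⊔ (P ^ k * L) * F := by
      rw [pow_succ]
      nth_rewrite 2 [hP]
      rw [Submodule.mul_sup, mul_one, Submodule.sup_mul]
      congr 1
      ring
    rw [e1]
    apply sup_le
    · refine le_sup_of_le_left ?_
      have e2 : P ^ (k + 1 + 1) = P ^ k * (P * P) := by ring
      rw [e2]
      exact mul_le_mul' le_rfl (hL.trans (mul_le_mul' hPF hPF))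
    · refine (mul_le_mul' ih le_rfl).trans ?_
      rw [Submodule.sup_mul]
      apply sup_le
      · refine le_sup_of_le_left ?_
        rw [pow_succ P (k + 1)]
        exact mul_le_mul' le_rfl hPF
      · refine le_sup_of_le_right ?_
        rw [pow_succ Q k, ← mul_assoc]
        exact mul_le_mul' le_rfl hQF

include hL in
/-- If `L ≤ F * F`, the powers of `1 + L + F` are spanned by less. -/
theorem quad (k : ℕ) :
    (1 ⊔ L ⊔ F) ^ (k + 1) ≤ (1 ⊔ F) ^ (k + 1) ⊔ L * (L ⊔ F) ^ k := by
  have hPF : F ≤ 1 ⊔ F := le_sup_right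
  have hQF : F ≤ L ⊔ F := le_sup_right
  induction k with
  | zero =>
    rw [zero_add, pow_one, pow_one, pow_zero, mul_one]
    exact sup_le (sup_le (le_sup_of_le_left le_sup_left) le_sup_right)
      (le_sup_of_le_left le_sup_right)
  | succ k ih =>
    rw [pow_succ (1 ⊔ L ⊔ F) (k + 1)]
    have e0 : (1 ⊔ L ⊔ F : Submodule K A) ≤ (1 ⊔ F) ⊔ L :=
      sup_le (sup_le (le_sup_of_le_left le_sup_left) le_sup_right)
        (le_sup_of_le_left le_sup_right)
    refine (mul_le_mul' ih e0).trans ?_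
    rw [Submodule.sup_mul, Submodule.mul_sup ((1 ⊔ F) ^ (k + 1)) (1 ⊔ F) L,
      Submodule.mul_sup (L * (L ⊔ F) ^ k) (1 ⊔ F) L]
    refine sup_le (sup_le ?_ ?_) (sup_le ?_ ?_)
    · refine le_sup_of_le_left ?_
      rw [← pow_succ]
    · exact quad_P L (1 ⊔ F) (L ⊔ F) F hL hPF hQF rfl (k + 1)
    · rw [Submodule.mul_sup, mul_one]
      apply sup_le
      · exact quad_L L (1 ⊔ F) (L ⊔ F) F hL hPF hQF rfl k
      · refine le_sup_of_le_right ?_
        rw [pow_succ (L ⊔ F) k, ← mul_assoc]
        exact mul_le_mul' le_rfl le_sup_right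
    · refine le_sup_of_le_right ?_
      rw [pow_succ (L ⊔ F) k, ← mul_assoc]
      exact mul_le_mul' le_rfl le_sup_left

include hL in
theorem Gen.quad {f : ℕ} (hF : Gen K F f) (hL1 : Gen K L 1) (k : ℕ) :
    Gen K ((1 ⊔ L ⊔ F) ^ (k + 1)) (Nat.multichoose (f + 1) (k + 1) + Nat.multichoose (f + 1) k) := by
  have h1 : Gen K (1 ⊔ F) (f + 1) := by
    rw [add_comm]
    exact Gen.one.sup hF
  have h2 : Gen K (L ⊔ F) (f + 1) := by
    rw [add_comm]
    exact hL1.sup hF
  have h3 := (h1.pow (k + 1)).sup (hL1.mul (h2.pow k))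
  rw [one_mul] at h3
  exact h3.mono (Pool.Agent.Rov.quad L F hL k) le_rfl

end quad

/-- A semilinear map. -/
theorem twist {M : Type} [AddCommGroup M] [Module K M] (φ : M → A) (σ : K → K)
    (h0 : φ 0 = 0) (hadd : ∀ u v, φ (u + v) = φ u + φ v) (hsm : ∀ (a : K) u, φ (a • u) = σ a • φ u)
    (S : Set M) (hS : ⊤ ≤ Submodule.span K S) (W : Submodule K A) (hW : ∀ y ∈ S, φ y ∈ W) (u : M) :
    φ u ∈ W := by
  refine Submodule.span_induction (p := fun u _ => φ u ∈ W) ?_ ?_ ?_ ?_
    (hS (Submodule.mem_top : u ∈ (⊤ : Submodule K M)))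
  · exact hW
  · rw [h0]
    exact Submodule.zero_mem _
  · intro y z _ _ hy hz
    rw [hadd]
    exact Submodule.add_mem _ hy hz
  · intro c y _ hy
    rw [hsm]
    exact Submodule.smul_mem _ _ hy

/-- Exchange. -/
theorem exchange {M : Type} [AddCommGroup M] [Module K M] [Module.Finite K M] (l : Finset M)
    (hl : LinearIndepOn K id (l : Set M)) :
    ∃ s : Finset M, s.card + l.card ≤ Module.finrank K M ∧
      ⊤ ≤ Submodule.span K ((l : Set M) ∪ (s : Set M)) := by
  classical
  let b := Module.Basis.extend hl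
  have hfin : Finite (hl.extend (Set.subset_univ _)) := Module.Finite.finite_basis b
  have i1 : Fintype (hl.extend (Set.subset_univ _)) := Fintype.ofFinite _
  have hcard : Module.finrank K M = (hl.extend (Set.subset_univ _)).toFinset.card := by
    rw [Module.finrank_eq_card_basis b, Set.toFinset_card]
  have hsub : l ⊆ (hl.extend (Set.subset_univ _)).toFinset := by
    intro y hy
    rw [Set.mem_toFinset]
    exact hl.subset_extend _ hy
  refine ⟨(hl.extend (Set.subset_univ _)).toFinset \ l, ?_, ?_⟩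
  · rw [hcard, Finset.card_sdiff_add_card_eq_card hsub]
  · rw [← Finset.coe_union, Finset.union_sdiff_of_subset hsub, Set.coe_toFinset]
    have h1 := b.span_eq
    rw [Module.Basis.range_extend] at h1
    rw [h1]

/-- If all the coordinate functions are in a space spanned by `d` elements, there are at most `d`
coordinates. -/
theorem card_le_of_single {ι : Type} [Fintype ι] [DecidableEq ι] (E : Submodule K (ι → K)) {d : ℕ}
    (hE : Gen K E d) (h : ∀ i, (Pi.single i 1 : ι → K) ∈ E) : Fintype.card ι ≤ d := by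
  classical
  obtain ⟨s, hs, hEs⟩ := hE
  have h1 : Submodule.span K (s : Set (ι → K)) = ⊤ := by
    rw [eq_top_iff]
    rw [← (Pi.basisFun K ι).span_eq, Submodule.span_le]
    rintro _ ⟨i, rfl⟩
    rw [Pi.basisFun_apply]
    exact hEs (h i)
  have h2 : Module.finrank K (Submodule.span K (s : Set (ι → K))) ≤ s.card :=
    finrank_span_finset_le_card s
  rw [h1, finrank_top, Module.finrank_fintype_fun_eq_card] at h2
  exact h2.trans hs

end Pool.Agent.Rov
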