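import Pool.Agent.Rov.Core

namespace Pool.Agent.Rov

theorem not_mem_T {K V : Type} [Field K] [Finite K] [AddCommGroup V] [Module K V]
    (F : Ovo.HF K V) (O : V → Prop)
    (par : ∀ v w, O v → O w → F.H v w = 0 → ∃ a : K, w = a • v)
    (x : V) (hxx : F.H x x = 0) (T : AddSubgroup K) (hT : ∀ t ∈ T, t + F.bar t = 0) (w w' : V)
    (hw : F.H w x = 1) (hw' : F.H w' x = 1) (hne : ∀ t ∈ T, w' ≠ w + t • x)
    (hS : Nat.card T < 2 * Nat.card {t : K // t ∈ T ∧ O (w + t • x)})
    (hS' : Nat.card T < 2 * Nat.card {t : K // t ∈ T ∧ O (w' + t • x)}) : F.H w w' ∉ T := by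
  classical
  intro hX
  let f : {t : K // t ∈ T ∧ O (w + t • x)} ⊕ {t : K // t ∈ T ∧ O (w' + t • x)} → T := fun s =>
    match s with
    | Sum.inl t => ⟨F.H w w' + t.1, T.add_mem hX t.2.1⟩
    | Sum.inr t => ⟨t.1, t.2.1⟩
  have hcross : ∀ (t : {t : K // t ∈ T ∧ O (w + t • x)}) (t' : {t : K // t ∈ T ∧ O (w' + t • x)}),
      F.H w w' + t.1 ≠ t'.1 := by
    rintro ⟨t, ht, hOt⟩ ⟨t', ht', hOt'⟩ heq
    simp only at heq
    have hxw' : F.H x w' = 1 := by rw [← F.symm, hw', map_one]
    have h1 : F.H (w + t • x) (w' + t' • x) = 0 := by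
      rw [F.addl, F.smull, F.addr, F.addr, F.smulr, F.smulr, hw, hxw', hxx]
      have h2 := hT t' ht'
      linear_combination heq + h2
    obtain ⟨a, ha⟩ := par _ _ hOt hOt' h1
    have h3 : F.H (w' + t' • x) x = a * F.H (w + t • x) x := by
      rw [ha, F.smull]
    rw [F.addl, F.smull, F.addl, F.smull, hw, hw', hxx, mul_zero, mul_zero, add_zero, mul_one] at h3
    rw [← h3, one_smul] at ha
    apply hne (t - t') (T.sub_mem ht ht')
    rw [sub_smul, ← add_sub_assoc, ← ha, add_sub_cancel_right]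
  have hf : Function.Injective f := by
    rintro (t | t) (t' | t') h
    · have h1 : F.H w w' + t.1 = F.H w w' + t'.1 := congrArg Subtype.val h
      rw [Subtype.ext (add_left_cancel h1)]
    · exact absurd (congrArg Subtype.val h) (hcross t t')
    · exact absurd (congrArg Subtype.val h).symm (hcross t' t)
    · have h0 : (⟨t.1, t.2.1⟩ : T) = ⟨t'.1, t'.2.1⟩ := h
      have h1 : t.1 = t'.1 := congrArg (fun z : T => (z : K)) h0
      rw [Subtype.ext h1]
  have h4 := Nat.card_le_card_of_injective f hf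
  rw [Nat.card_sum] at h4
  omega

theorem rich_le {K V : Type} [Field K] [Finite K] [AddCommGroup V] [Module K V]
    [Module.Finite K V] (F : Ovo.HF K V) (p h r : ℕ) [Fact p.Prime] [CharP K p]
    (hbar : ∀ a, F.bar a = a ^ p ^ h) (hK : Nat.card K = (p ^ h) ^ 2)
    (O : V → Prop) (iso : ∀ v, O v → F.H v v = 0)
    (par : ∀ v w, O v → O w → F.H v w = 0 → ∃ a : K, w = a • v)
    (x : V) (hxx : F.H x x = 0) (T : AddSubgroup K)
    (hTZ : ∀ t ∈ T, t + t ^ p ^ h = 0) (hT : Nat.card T * p ^ r = p ^ h)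
    (C : Finset V) (hC1 : ∀ w ∈ C, F.H w x = 1)
    (hC2 : ∀ w ∈ C, ∀ w' ∈ C, ∀ t ∈ T, w' = w + t • x → w = w')
    (hC3 : ∀ w ∈ C, Nat.card T < 2 * Nat.card {t : K // t ∈ T ∧ O (w + t • x)}) :
    C.card ≤ (Nat.multichoose (2 * (Module.finrank K V - 2) + 1) (p - 1) +
        Nat.multichoose (2 * (Module.finrank K V - 2) + 1) (p - 2)) ^ h *
      Nat.multichoose (h * (Module.finrank K V - 1) + 1) ((p - 1) * r) := by
  have hT' : ∀ t ∈ T, t + F.bar t = 0 := fun t ht => by rw [hbar]; exact hTZ t ht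
  refine core F p h r hbar hK x hxx T hTZ hT C hC1 ?_ ?_
  · intro w hw
    have h1 : 0 < Nat.card {t : K // t ∈ T ∧ O (w + t • x)} := by
      have := hC3 w hw
      omega
    have h2 : Nonempty {t : K // t ∈ T ∧ O (w + t • x)} := (Nat.card_pos_iff.1 h1).1
    obtain ⟨t, ht, hO⟩ := h2
    have h3 := iso _ hO
    have hxw : F.H x w = 1 := by rw [← F.symm, hC1 w hw, map_one]
    rw [F.addl, F.smull, F.addr, F.addr, F.smulr, F.smulr, hC1 w hw, hxw, hxx] at h3
    have h4 := hT' t ht
    linear_combination h3 - h4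
  · intro w hw w' hw' hne
    refine not_mem_T F O par x hxx T hT' w w' (hC1 w hw) (hC1 w' hw') ?_ (hC3 w hw) (hC3 w' hw')
    intro t ht h1
    exact hne (hC2 w hw w' hw' t ht h1)

/-- There are exactly `q` elements of trace zero. -/
theorem card_trace_zero_eq {K : Type} [Field K] [Finite K] {q : ℕ} (hK : Nat.card K = q ^ 2)
    (bar : K →+* K) (hbar : ∀ a, bar a = a ^ q) (bb : ∀ a, bar (bar a) = a) :
    Nat.card {a : K // a + a ^ q = 0} = q := by
  classical
  have i0 : Fintype K := Fintype.ofFinite K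
  refine le_antisymm (Ovo.card_trace_zero hK) ?_
  have h2 := Ovo.two_le_q hK
  let f : K → K := fun a => a + a ^ q
  have h3 : (Finset.univ : Finset K).card ≤
      Nat.card {a : K // a + a ^ q = 0} * (Finset.univ.image f).card := by
    apply Finset.card_le_mul_card_image
    intro b hb
    obtain ⟨a0, _, ha0⟩ := Finset.mem_image.1 hb
    have e1 : (Finset.univ.filter (fun a => f a = b)).card = Nat.card {a : K // f a = b} := by
      rw [Nat.card_eq_fintype_card, Fintype.card_subtype]
    rw [e1]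
    refine Nat.card_le_card_of_injective (fun a => ⟨a.1 - a0, ?_⟩) ?_
    · have e2 : f a.1 = f a0 := a.2.trans ha0.symm
      simp only [f] at e2
      rw [← hbar, map_sub, hbar, hbar]
      linear_combination e2
    · intro a a' haa
      have e3 : a.1 - a0 = a'.1 - a0 := congrArg Subtype.val haa
      exact Subtype.ext (sub_left_injective e3)
  have h4 : (Finset.univ.image f).card ≤ Nat.card {a : K // a ^ q = a} := by
    rw [Nat.card_eq_fintype_card, Fintype.card_subtype]
    apply Finset.card_le_card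
    intro b hb
    obtain ⟨a, _, rfl⟩ := Finset.mem_image.1 hb
    rw [Finset.mem_filter]
    refine ⟨Finset.mem_univ _, ?_⟩
    have e4 : bar (a + bar a) = a + bar a := by rw [map_add, bb, add_comm]
    rw [hbar (a + bar a), hbar a] at e4
    exact e4
  have h5 := h4.trans (Ovo.card_fixed hK)
  rw [Finset.card_univ, ← Nat.card_eq_fintype_card, hK] at h3
  by_contra hcon
  push Not at hcon
  nlinarith

end Pool.Agent.Rov
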