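import Pool.Agent.Ovo.Ovd

namespace Pool.Agent.Rov

variable {K V : Type} [Field K] [AddCommGroup V] [Module K V]

/-- Isometries. -/
def Isom (F : Ovo.HF K V) (g : V ≃ₗ[K] V) : Prop := ∀ u v, F.H (g u) (g v) = F.H u v

theorem Isom.symm {F : Ovo.HF K V} {g : V ≃ₗ[K] V} (hg : Isom F g) : Isom F g.symm := by
  intro u v
  rw [← hg, g.apply_symm_apply, g.apply_symm_apply]

theorem Isom.trans {F : Ovo.HF K V} {g g' : V ≃ₗ[K] V} (hg : Isom F g) (hg' : Isom F g') :
    Isom F (g.trans g') := by
  intro u v
  rw [LinearEquiv.trans_apply, LinearEquiv.trans_apply, hg', hg]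

/-- Two singular vectors which are not perpendicular are exchanged by an isometry. -/
theorem exists_isom_aux [Module.Finite K V] (F : Ovo.HF K V) {u v : V} (hu : F.H u u = 0)
    (hv : F.H v v = 0) (huv : F.H u v ≠ 0) : ∃ g, Isom F g ∧ g u = v := by
  have hvu : F.H v u ≠ 0 := fun h => huv (F.sw h)
  let f : V →ₗ[K] V :=
    { toFun := fun y => y + (F.H y (u - v) / F.H u v) • (u - v)
      map_add' := by
        intro y z
        rw [F.addl, add_div, add_smul]
        abel
      map_smul' := by
        intro a y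
        rw [F.smull, RingHom.id_apply, smul_add, smul_smul, mul_div_assoc] }
  have hf : ∀ y, f y = y + (F.H y (u - v) / F.H u v) • (u - v) := fun y => rfl
  have hcc : F.H (u - v) (u - v) = - F.H u v - F.H v u := by
    rw [F.subl, F.subr, F.subr, hu, hv]
    ring
  have hiso : ∀ y z, F.H (f y) (f z) = F.H y z := by
    intro y z
    rw [hf, hf, F.addl, F.smull, F.addr, F.addr, F.smulr, F.smulr, hcc, map_div₀, F.symm, F.symm]
    field_simp
    ring
  have hinj : Function.Injective f := by
    rw [injective_iff_map_eq_zero]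
    intro y hy
    apply F.nd
    intro z
    rw [← hiso, hy, F.zeror]
  refine ⟨LinearEquiv.ofInjectiveEndo f hinj, ?_, ?_⟩
  · intro y z
    exact hiso y z
  · show f u = v
    rw [hf, F.subr, hu, zero_sub, neg_div, div_self huv, neg_one_smul]
    abel

theorem exists_isom [Module.Finite K V] (F : Ovo.HF K V) {θ : K} (hθ : θ + F.bar θ = 1) {u v : V}
    (hu0 : u ≠ 0) (hv0 : v ≠ 0) (hu : F.H u u = 0) (hv : F.H v v = 0) :
    ∃ g, Isom F g ∧ g u = v := by
  by_cases huv : F.H u v = 0
  · have h1 : ∃ y, F.H y u ≠ 0 ∧ F.H y v ≠ 0 := by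
      have e1 : ∃ y, F.H y u ≠ 0 := by
        by_contra hcon
        push Not at hcon
        exact hu0 (F.nd u hcon)
      have e2 : ∃ y, F.H y v ≠ 0 := by
        by_contra hcon
        push Not at hcon
        exact hv0 (F.nd v hcon)
      obtain ⟨y1, hy1⟩ := e1
      obtain ⟨y2, hy2⟩ := e2
      by_cases h3 : F.H y1 v = 0
      · by_cases h4 : F.H y2 u = 0
        · refine ⟨y1 + y2, ?_, ?_⟩
          · rw [F.addl, h4, add_zero]
            exact hy1
          · rw [F.addl, h3, zero_add]
            exact hy2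
        · exact ⟨y2, h4, hy2⟩
      · exact ⟨y1, hy1, h3⟩
    obtain ⟨y, hyu, hyv⟩ := h1
    obtain ⟨c, hc⟩ := Ovo.HF.adjust hθ hu (v := y) (fun h => hyu (F.sw h))
    have e3 : F.H u (y + c • u) ≠ 0 := by
      rw [F.addr, F.smulr, hu, mul_zero, add_zero]
      exact fun h => hyu (F.sw h)
    have e4 : F.H (y + c • u) v ≠ 0 := by
      rw [F.addl, F.smull, huv, mul_zero, add_zero]
      exact hyv
    obtain ⟨g1, hg1, hg1u⟩ := exists_isom_aux F hu hc e3
    obtain ⟨g2, hg2, hg2u⟩ := exists_isom_aux F hc hv e4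
    refine ⟨g1.trans g2, hg1.trans hg2, ?_⟩
    rw [LinearEquiv.trans_apply, hg1u, hg2u]
  · exact exists_isom_aux F hu hv huv

/-- The preimage of a maximal totally isotropic subspace under an isometry. -/
theorem max_comap {F : Ovo.HF K V} {g : V ≃ₗ[K] V} (hg : Isom F g) {M : Submodule K V}
    (hM : Maximal F.TI M) : Maximal F.TI (M.comap g.toLinearMap) := by
  constructor
  · intro u hu v hv
    rw [← hg]
    exact hM.1 _ hu _ hv
  · intro N hN hMN v hv
    have h1 : F.TI (N.comap g.symm.toLinearMap) := by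
      intro a ha b hb
      rw [← hg.symm]
      exact hN _ ha _ hb
    have h2 : M ≤ N.comap g.symm.toLinearMap := by
      intro a ha
      apply hMN
      show g (g.symm a) ∈ M
      rw [g.apply_symm_apply]
      exact ha
    have h3 := hM.2 h1 h2
    apply h3
    show g.symm (g v) ∈ N
    rw [g.symm_apply_apply]
    exact hv

/-- In every generator, `|K| - 1` vectors span the point of the ovoid. -/
theorem card_gen [Finite K] [Finite V] {F : Ovo.HF K V} {S : V → Prop} (hS : F.Ov S)
    {M : Submodule K V} (hM : Maximal F.TI M) :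
    Nat.card {v : V // S v ∧ v ∈ M} = Nat.card K - 1 := by
  classical
  obtain ⟨v0, hv0M, hv0⟩ := hS.ex M hM
  have h1 : Nat.card {v : V // S v ∧ v ∈ M} = Nat.card Kˣ := by
    symm
    refine Nat.card_eq_of_bijective (fun a : Kˣ => ⟨(a : K) • v0, hS.sm _ _ a.ne_zero hv0,
      M.smul_mem _ hv0M⟩) ⟨?_, ?_⟩
    · intro a b hab
      have h2 : (a : K) • v0 = (b : K) • v0 := congrArg Subtype.val hab
      have h3 : ((a : K) - b) • v0 = 0 := by rw [sub_smul, h2, sub_self]
      exact Units.ext (sub_eq_zero.1 ((smul_eq_zero.1 h3).resolve_right (hS.ne _ hv0)))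
    · rintro ⟨v, hv, hvM⟩
      obtain ⟨a, ha⟩ := hS.uniq M hM v0 hv0M v hvM hv0 hv
      have ha0 : a ≠ 0 := by
        rintro rfl
        rw [zero_smul] at ha
        exact hS.ne v hv ha
      exact ⟨Units.mk0 a ha0, Subtype.ext ha.symm⟩
  rw [h1]
  have i0 : Fintype K := Fintype.ofFinite K
  rw [Nat.card_eq_fintype_card, Nat.card_eq_fintype_card, Fintype.card_units]

theorem ovoid_size [Finite K] [Finite V] (F : Ovo.HF K V) {θ : K} (hθ : θ + F.bar θ = 1)
    {S : V → Prop} (hS : F.Ov S) {M : Submodule K V} (hM : Maximal F.TI M) {v0 : V}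
    (hv0 : v0 ∈ M) (hv00 : v0 ≠ 0) :
    Nat.card {v : V // S v} * (Nat.card M - 1) =
      (Nat.card K - 1) * Nat.card {v : V // v ≠ 0 ∧ F.H v v = 0} := by
  classical
  have i0 : Fintype V := Fintype.ofFinite V
  have i1 : Module.Finite K V := Module.Finite.of_finite
  let G : Type := {g : V ≃ₗ[K] V // Isom F g}
  have i2 : Finite G := Finite.of_injective (fun g : G => (fun v => g.1 v : V → V)) (by
    intro g g' h
    exact Subtype.ext (LinearEquiv.ext (fun v => congrFun h v)))
  have i3 : Fintype G := Fintype.ofFinite G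
  let c : V → ℕ := fun v => (Finset.univ.filter (fun g : G => g.1 v ∈ M)).card
  let A1 : Finset V := Finset.univ.filter S
  let A2 : Finset V := Finset.univ.filter (fun v => v ≠ 0 ∧ F.H v v = 0)
  have hcomm : ∀ A : Finset V, ∑ v ∈ A, c v =
      ∑ g : G, (A.filter (fun v => g.1 v ∈ M)).card := by
    intro A
    simp only [c, Finset.card_filter]
    exact Finset.sum_comm
  have hA1 : ∀ g : G, (A1.filter (fun v => g.1 v ∈ M)).card = Nat.card K - 1 := by
    intro g
    rw [← card_gen hS (max_comap g.2 hM), Nat.card_eq_fintype_card, Fintype.card_subtype]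
    congr 1
    ext v
    simp only [A1, Finset.mem_filter, Finset.mem_univ, true_and]
    rfl
  have hA2 : ∀ g : G, (A2.filter (fun v => g.1 v ∈ M)).card = Nat.card M - 1 := by
    intro g
    have e1 : Nat.card M = (Finset.univ.filter (fun v => v ∈ M)).card := by
      rw [Nat.card_eq_fintype_card, Fintype.card_subtype]
    rw [e1, ← Finset.card_erase_of_mem (a := (0 : V)) (by
      rw [Finset.mem_filter]
      exact ⟨Finset.mem_univ _, M.zero_mem⟩)]
    apply Finset.card_bij (fun v _ => g.1 v)
    · intro v hv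
      simp only [A2, Finset.mem_filter, Finset.mem_univ, true_and] at hv
      rw [Finset.mem_erase, Finset.mem_filter]
      refine ⟨?_, Finset.mem_univ _, hv.2⟩
      intro h
      exact hv.1.1 (by rwa [LinearEquiv.map_eq_zero_iff] at h)
    · intro a _ b _ hab
      exact g.1.injective hab
    · intro b hb
      rw [Finset.mem_erase, Finset.mem_filter] at hb
      refine ⟨g.1.symm b, ?_, g.1.apply_symm_apply b⟩
      simp only [A2, Finset.mem_filter, Finset.mem_univ, true_and]
      refine ⟨⟨?_, ?_⟩, ?_⟩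
      · intro h
        rw [LinearEquiv.map_eq_zero_iff] at h
        exact hb.1 h
      · rw [g.2.symm]
        exact hM.1 _ hb.2.2 _ hb.2.2
      · rw [g.1.apply_symm_apply]
        exact hb.2.2
  have hconst : ∀ v ∈ A2, c v = c v0 := by
    intro v hv
    simp only [A2, Finset.mem_filter, Finset.mem_univ, true_and] at hv
    obtain ⟨k, hk, hkv⟩ := exists_isom F hθ hv.1 hv00 hv.2 (hM.1 _ hv0 _ hv0)
    symm
    apply Finset.card_bij (fun (g : G) _ => (⟨k.trans g.1, hk.trans g.2⟩ : G))
    · intro g hg
      simp only [Finset.mem_filter, Finset.mem_univ, true_and] at hg ⊢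
      rw [LinearEquiv.trans_apply, hkv]
      exact hg
    · intro g _ g' _ h
      apply Subtype.ext
      apply LinearEquiv.ext
      intro y
      have h1 : k.trans g.1 = k.trans g'.1 := congrArg Subtype.val h
      have h2 := congrFun (congrArg DFunLike.coe h1) (k.symm y)
      rw [LinearEquiv.trans_apply, LinearEquiv.trans_apply, k.apply_symm_apply] at h2
      exact h2
    · intro g hg
      simp only [Finset.mem_filter, Finset.mem_univ, true_and] at hg
      refine ⟨⟨k.symm.trans g.1, hk.symm.trans g.2⟩, ?_, ?_⟩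
      · simp only [Finset.mem_filter, Finset.mem_univ, true_and]
        rw [LinearEquiv.trans_apply, ← hkv, k.symm_apply_apply]
        exact hg
      · apply Subtype.ext
        apply LinearEquiv.ext
        intro y
        show g.1 (k.symm (k y)) = g.1 y
        rw [k.symm_apply_apply]
  have hsub : ∀ v ∈ A1, v ∈ A2 := by
    intro v hv
    simp only [A1, A2, Finset.mem_filter, Finset.mem_univ, true_and] at hv ⊢
    exact ⟨hS.ne v hv, hS.iso v hv⟩
  have e1 : A1.card * c v0 = Fintype.card G * (Nat.card K - 1) := by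
    have h1 := hcomm A1
    rw [Finset.sum_congr rfl (fun v hv => hconst v (hsub v hv)),
      Finset.sum_congr rfl (fun g _ => hA1 g), Finset.sum_const, Finset.sum_const,
      Finset.card_univ, smul_eq_mul, smul_eq_mul] at h1
    exact h1
  have e2 : A2.card * c v0 = Fintype.card G * (Nat.card M - 1) := by
    have h1 := hcomm A2
    rw [Finset.sum_congr rfl (fun v hv => hconst v hv),
      Finset.sum_congr rfl (fun g _ => hA2 g), Finset.sum_const, Finset.sum_const,
      Finset.card_univ, smul_eq_mul, smul_eq_mul] at h1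
    exact h1
  have hc0 : 0 < c v0 := by
    apply Finset.card_pos.2
    refine ⟨⟨LinearEquiv.refl K V, fun u v => rfl⟩, ?_⟩
    rw [Finset.mem_filter]
    exact ⟨Finset.mem_univ _, hv0⟩
  have e3 : Nat.card {v : V // S v} = A1.card := by
    rw [Nat.card_eq_fintype_card, Fintype.card_subtype]
  have e4 : Nat.card {v : V // v ≠ 0 ∧ F.H v v = 0} = A2.card := by
    rw [Nat.card_eq_fintype_card, Fintype.card_subtype]
  rw [e3, e4]
  apply Nat.eq_of_mul_eq_mul_right hc0
  calc A1.card * (Nat.card M - 1) * c v0 = (A1.card * c v0) * (Nat.card M - 1) := by ring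
    _ = (Nat.card K - 1) * (Fintype.card G * (Nat.card M - 1)) := by rw [e1]; ring
    _ = (Nat.card K - 1) * A2.card * c v0 := by rw [← e2]; ring

end Pool.Agent.Rov
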